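import Mathlib
import Pool.Agent.H85.CPX.One

/-!
# MP_cda23d_nt: the product of the nonsplit primes is bounded by a power of the discriminant of one torsion field
-/

set_option autoImplicit false

namespace Pool.Agent.H85.Old.UniformPower

open Pool.Agent.H27.SU Pool.Agent.H85.CP Pool.Agent.H85.CPX Pool.Agent.H80.CPP

/-- **Theorem.** For every prime `r` there is an exponent `A` such that for every elliptic curve `E/ℚ` with
`j(E) ≠ 0, 1728` and every finite set `S` of primes
`∏_{p ∈ S} p ≤ |D|^A`, where `D` is the discriminant of the number field `ℚ(x(E[r]))`, in each of the cases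
* (a) all `p ∈ S` are nonsplit (the image of `ρ_{E,p}` is contained in the normaliser of a nonsplit Cartan subgroup), and
  `r ≥ 3` and `ρ_{E,r}` is surjective, or fewer than half of the elements of the image of `ρ_{E,r}` have a scalar square
  (that is, the projective image is neither dihedral nor cyclic of order at most 2 or 4);
* (b) all `p ∈ S` have the same Cartan field `K` (for instance `S = {p}`), and some `σ ∈ G_ℚ` which is not trivial on `K` has
  no scalar square on `E[r]`;
* (c) all `p ∈ S` have the same Cartan field, `r = 2`, `E` has no rational point of order `2`, and `Δ(E) > 0` or `v_q(Δ(E))` is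
  odd for a prime `q = 1 mod 4`. -/
theorem result (r : ℕ) (hr : r.Prime) : ∃ A : ℕ, ∀ (E : WeierstrassCurve ℚ) [E.IsElliptic],
    E.j ≠ 0 → E.j ≠ 1728 → ∃ _ : NumberField (XField E r), ∀ S : Finset ℕ,
      ((∀ p ∈ S, ∃ _ : Fact p.Prime, InNonsplitNormaliser E p) ∧
        ((3 ≤ r ∧ Nfed6cde5.HasFullTorsionAction E r) ∨ FewScalarSquares E r)) ∨
      (∃ K : IntermediateField ℚ (AlgebraicClosure ℚ), (∀ p ∈ S, CartanField E p K) ∧
        ((∃ σ : AlgebraicClosure ℚ ≃ₐ[ℚ] AlgebraicClosure ℚ,
            (∃ x ∈ K, σ x ≠ x) ∧ ¬ SquareScalar E r σ) ∨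
          (r = 2 ∧ (∀ x : ℚ, 4 * x ^ 3 + E.b₂ * x ^ 2 + 2 * E.b₄ * x + E.b₆ ≠ 0) ∧
            (0 < E.Δ ∨ ∃ q : ℕ, q.Prime ∧ q % 4 = 1 ∧ Odd (padicValRat q E.Δ))))) →
      ∏ p ∈ S, p ≤ (NumberField.discr (XField E r)).natAbs ^ A :=
  cp_one r hr

end Pool.Agent.H85.Old.UniformPower
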